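import Pool.Agent.Y116.OR.Main

/-!
# Ordinary primes of motives and systems of bilinear equations
-/

set_option autoImplicit false

open CategoryTheory Limits MonoidalCategory AlgebraicGeometry Pool.Agent.Y116.UV
open Pool.Agent.Y101.Th Pool.Agent.Y101.Th.RX Pool.Agent.Y116.OR

namespace Pool.Agent.Results.MP_0dad22_ag.BilinearEquations

universe v u

attribute [local instance] Abelian.hasFiniteBiproducts

variable {K : Type} [Field K] {𝒜 : Type u} [Category.{v} 𝒜] [Abelian 𝒜] [MonoidalCategory 𝒜]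
  {T : Data K 𝒜}

/-- **Ordinary primes of motives and systems of bilinear equations.** -/
theorem result (hT : IsData T) :
    IsLargeness (fun s : Set T.Pl => s.Infinite) ∧
    ∀ Lg : Set T.Pl → Prop, IsLargeness Lg →
      (∀ d : ℕ, List.TFAE [
        ∀ X : Sch K, SmProj X → topologicalKrullDim X.left ≤ d → ∀ n,
          Lg {v | T.AllOrd v (T.tot X n)},
        ∀ N, Lg {v | T.AllOrd v (T.M N (d + 3))},
        ∀ n, ∃ N, n ≤ N ∧ Lg {v | T.AllOrd v (T.M N (d + 3))}]) ∧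
      List.TFAE [
        ∀ X : Sch K, SmProj X → ∀ (i : ℤ) (R : 𝒜), Fac R (T.H X i) → Lg {v | T.Ord v R},
        ∀ X : Sch K, SmProj X → ∀ (i : ℕ) (R : 𝒜), Fac R (T.H X ((2 * i : ℕ) : ℤ)) →
          Lg {v | T.Ord v R},
        ∀ X : Sch K, SmProj X → ∀ n, Lg {v | T.AllOrd v (T.tot X n)},
        ∀ N, Lg {v | T.AllOrd v (T.M N N)},
        ∀ n, ∃ N, n ≤ N ∧ Lg {v | T.AllOrd v (T.M N N)}] ∧
      ((∀ X : Sch K, SmProj X → topologicalKrullDim X.left ≤ (0 : ℕ) → ∀ n,
          Lg {v | T.AllOrd v (T.tot X n)}) →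
        ∀ (a b c : ℕ) (t : Fin a → Fin b → Fin c → ℚ), b ≤ 2 ∨ c ≤ 2 → ∀ n,
          Lg {v | T.AllOrd v (⨁ fun i : Fin n => T.E (bilS t) (i : ℤ))}) := by
  refine ⟨?_, fun Lg hL => ⟨fun d => ?_, ?_, fun h a b c t hm n => ?_⟩⟩
  · intro s t hs h hft
    apply hs
    refine (Set.Finite.union hft h).subset fun v hv => ?_
    by_cases hvt : v ∈ t
    · exact Or.inl hvt
    · exact Or.inr fun h' => hvt (h' hv)
  · tfae_have 1 → 2 := by
      intro h N
      obtain ⟨⟨⟨X, hX, hXd⟩, n⟩, hx⟩ := M_fam hT d N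
      exact large_of_gen hT hL hx (h X hX hXd n)
    tfae_have 2 → 3 := fun h n => ⟨n, le_rfl, h n⟩
    tfae_have 3 → 1 := by
      intro h X hX hXd n
      obtain ⟨N, hN⟩ := tot_gen_M hT d X hX hXd n
      obtain ⟨N', hN', h'⟩ := h N
      exact large_of_gen hT hL ((M_mono hN' le_rfl).trans hN) h'
    tfae_finish
  · tfae_have 1 → 2 := fun h X hX i R hR => h X hX _ R hR
    tfae_have 2 → 3 := by
      intro h X hX n
      obtain ⟨i, S, ⟨X', hX', hS⟩, hG⟩ := in_tot hT X hX n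
      exact hL _ _ (h X' hX' i S hS) hG
    tfae_have 3 → 4 := by
      intro h N
      obtain ⟨⟨⟨X, hX, hXd⟩, n⟩, hx⟩ := M_fam hT N N
      exact large_of_gen hT hL (hx.trans (M_mono le_rfl (by omega))) (h X hX n)
    tfae_have 4 → 5 := fun h n => ⟨n, le_rfl, h n⟩
    tfae_have 5 → 1 := by
      intro h X hX i R hR
      obtain ⟨N, hN⟩ := H_gen_MM hT X hX i
      obtain ⟨N', hN', h'⟩ := h N
      refine hL _ _ (large_of_gen hT hL ((M_mono hN' hN').trans hN) h') ?_
      exact Filter.Eventually.of_forall fun v hv => hv R hR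
    tfae_finish
  · have := nonempty_SP hT 0
    obtain ⟨⟨⟨X, hX, hXd⟩, m⟩, hx⟩ := dir_big (dir_fam hT 0)
      (fun i : Fin n => T.E (bilS t) (i : ℤ)) fun i => bil_fam hT 0 t hm _
    exact large_of_gen hT hL hx (h X hX hXd m)

end Pool.Agent.Results.MP_0dad22_ag.BilinearEquations
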