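import Pool.Agent.Y162.FD.Mot

/-!
# The density of the ordinary primes of summands of motives with small Hodge defects

`K` is a number field and `A i` (`i` in a finite set) are pure motives over `K`, summands of motives which
realise the intersection cohomology `H_ℓ'`; `R i ℓ'` is the `ℓ'`-adic realisation of `A i`, for all primes
`ℓ'`.  The realisations are strictly compatible, the characteristic polynomials `P v` of the geometric
Frobenius elements are integral, with the archimedean absolute values and the divisibilities of Weil and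
Mazur.  The *defect* of `A i` at a vertex `k` of its Hodge polygon `hp` is `w k - 2 hp k`, where `w` is the
weight; all defects are at most two (transcendental parts of the cohomology in degree two of K3 surfaces
and of all surfaces with `p_g = 1`, of hyperkähler varieties, cubic fourfolds, `H¹` of abelian surfaces
and elliptic curves, all Tate motives and all twists of these).

No connectedness of the monodromy groups is assumed, and the field `K` is not extended.

Theorem. The set of the primes of `K` at which for all `i`, all `ℓ'` and all embeddings `τ` of the field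
of algebraic numbers into `ℚ̄_p` the Newton polygon of `R i ℓ'` is the Hodge polygon is *Frobenian* up to a
set of density zero: there is a finite Galois extension of `K` (with group `G_K / U`) and a set of
conjugacy classes of its Galois group (the image of `C`), among them the class of the identity, such that
the Frobenius elements at the ordinary primes are in `C` and such that the primes with Frobenius elements
in `C` which are not ordinary have density zero.  In particular the ordinary primes have a natural density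
over `K` itself, this density is a positive rational number, and the ordinary primes have density one
among the primes which split completely in the extension.
-/

set_option autoImplicit false

namespace Pool.Agent.Results.MP_0dad22_ag.FrobenianDensity

open NumberField IsDedekindDomain Polynomial Filter Topology
open Pool.Agent.W401.Cheb Pool.Agent.W528.Ord Pool.Agent.Y162.FD
open Pool.Agent.W528.Ord.MultSystem (IsDeg1)

/-- The realisations `R ℓ'` are strictly compatible: at the places of degree one outside `S` the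
characteristic polynomial of the geometric Frobenius element (the inverse of `γ`) is `F v`. -/
def StrictlyCompatible {K : Type} [Field K] [NumberField K] (S : Finset ℕ) {r : ℕ}
    (R : ∀ (ℓ' : ℕ) [Fact ℓ'.Prime], GK K →* Matrix.GeneralLinearGroup (Fin r) ℚ_[ℓ'])
    (F : HeightOneSpectrum (𝓞 K) → Polynomial ℤ) : Prop :=
  ∀ (ℓ' : ℕ) [Fact ℓ'.Prime] (v : HeightOneSpectrum (𝓞 K)), IsDeg1 S v →
    Ideal.absNorm v.asIdeal ≠ ℓ' → ∀ γ : GK K, IsFrob v γ →
      (R ℓ' γ⁻¹ : Matrix (Fin r) (Fin r) ℚ_[ℓ']).charpoly = (F v).map (Int.castRingHom ℚ_[ℓ'])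

/-- For every prime `ℓ'` different from the residue characteristic `p = N v` and every embedding `τ`
of the field of algebraic numbers the Newton polygon of `R ℓ'` at `v` has the slopes `H`. -/
def Ordinary {K : Type} [Field K] [NumberField K] {r : ℕ}
    (R : ∀ (ℓ' : ℕ) [Fact ℓ'.Prime], GK K →* Matrix.GeneralLinearGroup (Fin r) ℚ_[ℓ'])
    (H : Multiset ℕ) (v : HeightOneSpectrum (𝓞 K)) : Prop :=
  ∃ (p : ℕ) (_ : Fact p.Prime), Ideal.absNorm v.asIdeal = p ∧
    ∀ (ℓ' : ℕ) [Fact ℓ'.Prime], p ≠ ℓ' → ∀ γ : GK K, IsFrob v γ →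
      ∀ τ : algebraicClosure ℚ (PadicAlgCl ℓ') →+* PadicAlgCl p,
        NewtonTau (R ℓ' γ⁻¹ : Matrix (Fin r) (Fin r) ℚ_[ℓ']) τ H

theorem ordinary_iff {K : Type} [Field K] [NumberField K] {ℓ : ℕ} [Fact ℓ.Prime]
    {A : IntSystem K ℓ} {χ : GK K →* (PadicAlgCl ℓ)ˣ} {S : Finset ℕ} (hA : IsSmallMotive A χ S)
    {R : ∀ (ℓ' : ℕ) [Fact ℓ'.Prime], GK K →* Matrix.GeneralLinearGroup (Fin A.n) ℚ_[ℓ']}
    (hR : StrictlyCompatible S R A.P) {v : HeightOneSpectrum (𝓞 K)} (hv : IsDeg1 S v) :
    Ordinary R A.h v ↔ A.Ordinary v := by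
  rw [← newton_ordinary hA hv]
  constructor
  · rintro ⟨p, hp, hpe, h⟩
    obtain ⟨ℓ', hℓ', hne⟩ : ∃ ℓ' : ℕ, ℓ'.Prime ∧ p ≠ ℓ' := by
      by_cases h2 : p = 2
      · exact ⟨3, Nat.prime_three, by omega⟩
      · exact ⟨2, Nat.prime_two, h2⟩
    have : Fact ℓ'.Prime := ⟨hℓ'⟩
    obtain ⟨γ, hγ⟩ := exists_isFrob v
    obtain ⟨τ⟩ := exists_embedding ℓ' p
    rw [hpe]
    exact newtonSlopes_of _ τ _ (A.P v) (hR ℓ' v hv (by rw [hpe]; exact hne) γ hγ) (h ℓ' hne γ hγ τ)
  · intro hN
    have hp : Fact (Ideal.absNorm v.asIdeal).Prime := ⟨hv.1⟩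
    exact ⟨_, hp, rfl, fun ℓ' _ hne γ hγ τ => newtonTau_of _ τ _ (A.P v) (hR ℓ' v hv hne γ hγ) hN⟩

theorem result (K : Type) [Field K] [NumberField K] (ℓ : ℕ) [Fact ℓ.Prime] {ι : Type} [Finite ι]
    -- the motives
    (A : ι → IntSystem K ℓ) (χ : GK K →* (PadicAlgCl ℓ)ˣ) (S : Finset ℕ)
    (hA : ∀ i, IsSmallMotive (A i) χ S)
    -- the `ℓ'`-adic realisations, for all `ℓ'`
    (R : ∀ i, ∀ (ℓ' : ℕ) [Fact ℓ'.Prime],
      GK K →* Matrix.GeneralLinearGroup (Fin (A i).n) ℚ_[ℓ'])
    (hR : ∀ i, StrictlyCompatible S (R i) (A i).P) :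
    ∃ (U : Subgroup (GK K)) (C : Set (GK K)), U.Normal ∧ IsOpen (U : Set (GK K)) ∧
      (U : Set (GK K)) ⊆ C ∧ (∀ σ ∈ C, ∀ τ, τ * σ * τ⁻¹ ∈ C) ∧ (∀ σ ∈ C, ∀ u ∈ U, σ * u ∈ C) ∧
      -- the Frobenius elements at the ordinary places are in `C`
      (∀ v, IsDeg1 S v → (∀ i, Ordinary (R i) (A i).h v) → ∀ σ, IsFrob v σ → σ ∈ C) ∧
      -- the other places with Frobenius elements in `C` have density zero
      Tendsto (ratio fun v : HeightOneSpectrum (𝓞 K) => (∃ σ ∈ C, IsFrob v σ) ∧
        ¬ (IsDeg1 S v ∧ ∀ i, Ordinary (R i) (A i).h v)) atTop (𝓝 0) ∧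
      -- the density of the ordinary places is a positive rational number
      Tendsto (ratio fun v : HeightOneSpectrum (𝓞 K) =>
          IsDeg1 S v ∧ ∀ i, Ordinary (R i) (A i).h v) atTop
        (𝓝 ((((QuotientGroup.mk : GK K → GK K ⧸ U) '' C).ncard : ℝ) / (U.index : ℝ))) ∧
      0 < (((QuotientGroup.mk : GK K → GK K ⧸ U) '' C).ncard : ℝ) / (U.index : ℝ) := by
  obtain ⟨U, C, hU, hUo, hUC, hconj, hinv, h1, h2⟩ :=
    frobenian A χ S fun i => (hA i).toIsIntSystem
  have e : ∀ v, (IsDeg1 S v ∧ ∀ i, Ordinary (R i) (A i).h v) ↔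
      (IsDeg1 S v ∧ ∀ i, (A i).Ordinary v) := fun v =>
    and_congr_right fun hv => forall_congr' fun i => ordinary_iff (hA i) (hR i) hv
  have hfin : Finite (GK K ⧸ U) := Subgroup.quotient_finite_of_isOpen _ hUo
  simp only [e]
  refine ⟨U, C, hU, hUo, hUC, hconj, hinv, fun v hv hall => h1 v hv ((e v).mp ⟨hv, hall⟩).2,
    ratio_tendsto _ _ h2, density_of _ U hUo C hconj hinv (fun v hv => ?_) h2, ?_⟩
  · obtain ⟨σ, hσ⟩ := exists_isFrob v
    exact ⟨σ, h1 v hv.1 hv.2 σ hσ, hσ⟩
  · apply div_pos
    · have : 0 < ((QuotientGroup.mk : GK K → GK K ⧸ U) '' C).ncard :=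
        (Set.ncard_pos (Set.toFinite _)).mpr ⟨_, 1, hUC U.one_mem, rfl⟩
      exact_mod_cast this
    · have : 0 < U.index := Nat.card_pos
      exact_mod_cast this

end Pool.Agent.Results.MP_0dad22_ag.FrobenianDensity
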